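import Pool.Agent.Helper13K9.Drn.Tasks

/-!
# Project DRN (MP_b148a6_co): the families `NL_tail`, `NL_leaf`, `NL_legs`, `NL_star`, `NL_dstar`
-/

set_option autoImplicit false

namespace Pool.Agent.Helper95K9.Drn

open Pool.Agent.Helper13K9.Drn

/-! ### Small facts -/

theorem eq_zero_of_sum {M : Multiset RT} (h : (M.map size).sum = 0) : M = 0 := by
  by_contra hne
  obtain ⟨D, hD⟩ := Multiset.exists_mem_of_ne_zero hne
  obtain ⟨M', hM⟩ := Multiset.exists_cons_of_mem hD
  rw [hM, Multiset.map_cons, Multiset.sum_cons] at h
  have := size_pos D
  omega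

theorem eq_leaf_of_size {X : RT} (h : size X = 1) : X = leaf := by
  have h1 := size_eq X
  have h2 : ch X = 0 := eq_zero_of_sum (by omega)
  rw [← node_ch X, h2]; rfl

@[simp] theorem ch_leaf : ch leaf = 0 := by simp [leaf]

theorem cons_eq_one {α : Type} {D a : α} {M : Multiset α} (h : D ::ₘ M = {a}) : D = a ∧ M = 0 := by
  have h1 : D ∈ ({a} : Multiset α) := h ▸ Multiset.mem_cons_self D M
  rw [Multiset.mem_singleton] at h1
  subst h1
  refine ⟨rfl, ?_⟩
  have h2 := congrArg Multiset.card h
  simp at h2
  exact h2

theorem cons_eq_two {α : Type} {D a b : α} {M : Multiset α} (h : D ::ₘ M = {a, b}) :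
    (D = a ∧ M = {b}) ∨ (D = b ∧ M = {a}) := by
  have h1 : D ∈ ({a, b} : Multiset α) := h ▸ Multiset.mem_cons_self D M
  rcases Multiset.mem_cons.1 h1 with h2 | h2
  · subst h2
    exact Or.inl ⟨rfl, (Multiset.cons_inj_right _).1 h⟩
  · rw [Multiset.mem_singleton] at h2
    subst h2
    rw [Multiset.pair_comm] at h
    exact Or.inr ⟨rfl, (Multiset.cons_inj_right _).1 h⟩

theorem cons_eq_three {α : Type} {D a b c : α} {M : Multiset α} (h : D ::ₘ M = {a, b, c}) :
    (D = a ∧ M = {b, c}) ∨ (D = b ∧ M = {a, c}) ∨ (D = c ∧ M = {a, b}) := by
  have h1 : D ∈ ({a, b, c} : Multiset α) := h ▸ Multiset.mem_cons_self D M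
  rcases Multiset.mem_cons.1 h1 with h2 | h2
  · subst h2
    exact Or.inl ⟨rfl, (Multiset.cons_inj_right _).1 h⟩
  · rcases Multiset.mem_cons.1 h2 with h2 | h2
    · subst h2
      have h3 : ({a, D, c} : Multiset α) = D ::ₘ {a, c} := Multiset.cons_swap a D {c}
      rw [h3] at h
      exact Or.inr (Or.inl ⟨rfl, (Multiset.cons_inj_right _).1 h⟩)
    · rw [Multiset.mem_singleton] at h2
      subst h2
      have h3 : ({a, b, D} : Multiset α) = D ::ₘ {a, b} := by
        show a ::ₘ b ::ₘ {D} = D ::ₘ a ::ₘ {b}
        rw [Multiset.cons_swap D a]
        congr 1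
        exact Multiset.pair_comm b D
      rw [h3] at h
      exact Or.inr (Or.inr ⟨rfl, (Multiset.cons_inj_right _).1 h⟩)

theorem Nn_succ (j : ℕ) (X : RT) : Nn (j + 1) X = node {Nn j X} :=
  Function.iterate_succ_apply' _ _ _

theorem Nn_succ' (j : ℕ) (X : RT) : Nn (j + 1) X = Nn j (node {X}) :=
  Function.iterate_succ_apply _ _ _

@[simp] theorem Nn_zero (X : RT) : Nn 0 X = X := rfl

theorem Pt_succ {n : ℕ} (h : 1 ≤ n) : Pt (n + 1) = node {Pt n} := by
  obtain ⟨m, rfl⟩ : ∃ m, n = m + 1 := ⟨n - 1, by omega⟩
  rfl

theorem Pt_one : Pt 1 = leaf := rfl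

theorem ch_Pt (m : ℕ) : ch (Pt (m + 2)) = {Pt (m + 1)} := by
  rw [Pt, ch_node]

theorem size_Pt : ∀ n : ℕ, 1 ≤ n → size (Pt n) = n
  | 0, h => by omega
  | 1, _ => by simp [Pt]
  | n + 2, _ => by
    have h := size_Pt (n + 1) (by omega)
    rw [Pt, size_node, Multiset.map_singleton, Multiset.sum_singleton, h]
    omega

theorem Nn_leaf : ∀ j : ℕ, Nn j leaf = Pt (j + 1)
  | 0 => rfl
  | j + 1 => by rw [Nn_succ, Nn_leaf j]; rfl

/-! ### `In` -/

theorem In_inv {K D Y : RT} (h : In K D Y) :
    Y = node (K ::ₘ ch D) ∨ ∃ E N, D = node (E ::ₘ N) ∧ In (node (K ::ₘ N)) E Y := by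
  cases h with
  | root => exact Or.inl rfl
  | deep N h => exact Or.inr ⟨_, N, rfl, h⟩

theorem In_leaf {K Y : RT} (h : In K leaf Y) : Y = node {K} := by
  rcases In_inv h with h | ⟨E, N, h1, -⟩
  · rw [h, ch_leaf]; rfl
  · rw [leaf, node_inj] at h1
    exact absurd h1.symm (Multiset.cons_ne_zero)

theorem Sub.trans' {A B C : RT} (h : Sub A B) (h' : Sub B C) : Sub A C := by
  induction h' with
  | refl => exact h
  | deep hD _ ih => exact Sub.deep hD ih

theorem In_up {K D Y : RT} (h : In K D Y) : ∃ U S, Y = node (U ::ₘ ch S) ∧ Sub S D ∧ Sub K U ∧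
    size U + size S = size K + size D ∧ ((S = D ∧ U = K) ∨ (size S < size D ∧ size K < size U)) := by
  induction h with
  | root K D => exact ⟨K, D, rfl, Sub.refl, Sub.refl, rfl, Or.inl ⟨rfl, rfl⟩⟩
  | @deep K E Y N _ ih =>
    obtain ⟨U, S, h1, h2, h3, h4, h5⟩ := ih
    have e1 : size (node (K ::ₘ N)) = 1 + (size K + (N.map size).sum) := by
      rw [size_node, Multiset.map_cons, Multiset.sum_cons]
    have e2 : size (node (E ::ₘ N)) = 1 + (size E + (N.map size).sum) := by
      rw [size_node, Multiset.map_cons, Multiset.sum_cons]
    refine ⟨U, S, h1, Sub.deep (by rw [ch_node]; exact Multiset.mem_cons_self _ _) h2,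
      Sub.trans' (Sub.deep (by rw [ch_node]; exact Multiset.mem_cons_self _ _) Sub.refl) h3,
      by omega, Or.inr ?_⟩
    rcases h5 with ⟨h5, h6⟩ | ⟨h5, h6⟩
    · subst h5 h6
      omega
    · omega

theorem In_single {K₀ D Y : RT} (h : In K₀ D Y) : ∀ K, Y = node {K} →
    (D = leaf ∧ K = K₀) ∨ ∃ D', Del leaf D D' ∧ UI (node (K₀ ::ₘ ch D')) K := by
  induction h with
  | root K₀ D =>
    intro K hK
    rw [node_inj] at hK
    obtain ⟨h1, h2⟩ := cons_eq_one hK
    exact Or.inl ⟨by rw [← node_ch D, h2]; rfl, h1.symm⟩
  | @deep K₀ E Y N _ ih =>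
    intro K hK
    right
    rcases ih K hK with ⟨h1, h2⟩ | ⟨E', h1, h2⟩
    · subst h1 h2
      exact ⟨node N, Del.here N, by rw [ch_node]; exact UI.refl _⟩
    · refine ⟨node (E' ::ₘ N), Del.deep N h1, ?_⟩
      rw [ch_node, Multiset.cons_swap]
      exact (UI.re E' (K₀ ::ₘ N)).trans h2

theorem UI_single (hUI : Lib_UI_iff) {Z K : RT} (h : UI Z (node {K})) :
    Z = node {K} ∨ ∃ K', Del leaf Z K' ∧ UI K' K := by
  rcases (hUI _ _).1 h with h | ⟨D, M, h1, h2⟩
  · exact Or.inl h
  · right
    subst h1
    rcases In_single h2 K rfl with ⟨h3, h4⟩ | ⟨D', h3, h4⟩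
    · subst h3 h4
      exact ⟨node M, Del.here M, UI.refl _⟩
    · exact ⟨node (D' ::ₘ M), Del.deep M h3, (UI.re D' M).trans h4⟩

theorem Del_inv {S X Y : RT} (h : Del S X Y) :
    (∃ M, X = node (S ::ₘ M) ∧ Y = node M) ∨
      ∃ D D' M, X = node (D ::ₘ M) ∧ Del S D D' ∧ Y = node (D' ::ₘ M) := by
  cases h with
  | here M => exact Or.inl ⟨M, rfl, rfl⟩
  | deep M h => exact Or.inr ⟨_, _, M, rfl, h, rfl⟩

/-! ### Paths -/

theorem In_Pt : ∀ (k : ℕ) (K Y : RT), In K (Pt (k + 1)) Y →
    (∃ j m, j + m = k ∧ 1 ≤ m ∧ Y = node {Nn j K, Pt m}) ∨ Y = node {Nn k K}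
  | 0, K, Y, h => Or.inr (In_leaf h)
  | k + 1, K, Y, h => by
    have e : Pt (k + 1 + 1) = node {Pt (k + 1)} := rfl
    rw [e] at h
    rcases In_inv h with h | ⟨E, N, h1, h2⟩
    · refine Or.inl ⟨0, k + 1, by omega, by omega, ?_⟩
      rw [h, ch_node]; rfl
    · rw [node_inj] at h1
      obtain ⟨h3, h4⟩ := cons_eq_one h1.symm
      subst h3 h4
      rcases In_Pt k _ _ h2 with ⟨j, m, h5, h6, h7⟩ | h5
      · refine Or.inl ⟨j + 1, m, by omega, h6, ?_⟩
        rw [h7, Nn_succ']; rfl
      · refine Or.inr ?_
        rw [h5, Nn_succ']; rfl

theorem card_In_Pt {k : ℕ} {K Y : RT} (h : In K (Pt k) Y) : Multiset.card (ch Y) ≤ 2 := by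
  rcases k with _ | k
  · rw [In_leaf h]; simp
  · rcases In_Pt k K Y h with ⟨j, m, -, -, h⟩ | h
    · rw [h]; simp
    · rw [h]; simp

/-- the re-rootings of a path -/
theorem UI_Pt (hUI : Lib_UI_iff) {m : ℕ} {X : RT} (hm : 1 ≤ m) (h : UI X (Pt m)) :
    X = Pt m ∨ ∃ i j, 1 ≤ i ∧ 1 ≤ j ∧ i + j + 1 = m ∧ X = node {Pt i, Pt j} := by
  rcases (hUI _ _).1 h.symm with h | ⟨D, M, h1, h2⟩
  · exact Or.inl h.symm
  · rcases m with _ | _ | m
    · omega
    · exfalso
      rw [Pt_one, leaf, node_inj] at h1
      exact Multiset.cons_ne_zero h1.symm
    · have e : Pt (m + 1 + 1) = node {Pt (m + 1)} := rfl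
      rw [e, node_inj] at h1
      obtain ⟨h3, h4⟩ := cons_eq_one h1.symm
      subst h3 h4
      have h2 : In leaf (Pt (m + 1)) X := h2
      rcases In_Pt m _ _ h2 with ⟨j, i, h5, h6, h7⟩ | h5
      · refine Or.inr ⟨j + 1, i, by omega, h6, by omega, ?_⟩
        rw [h7, Nn_leaf]
      · left
        rw [h5, Nn_leaf]; rfl

theorem UI_Pt_single (hUI : Lib_UI_iff) {m : ℕ} {X : RT} (hm : 1 ≤ m) (h : UI X (Pt m))
    (hc : Multiset.card (ch X) ≤ 1) : X = Pt m := by
  rcases UI_Pt hUI hm h with h | ⟨i, j, -, -, -, h⟩
  · exact h
  · rw [h] at hc
    simp at hc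

theorem card_ch_Pt (m : ℕ) : Multiset.card (ch (Pt m)) ≤ 1 := by
  rcases m with _ | _ | m
  · simp [Pt]
  · simp [Pt]
  · simp [Pt]

theorem UI_Pt_double (hUI : Lib_UI_iff) {m : ℕ} {X : RT} (hm : 1 ≤ m) (h : UI X (Pt m))
    (hc : 2 ≤ Multiset.card (ch X)) : ∃ i j, 1 ≤ i ∧ 1 ≤ j ∧ i + j + 1 = m ∧ X = node {Pt i, Pt j} := by
  rcases UI_Pt hUI hm h with h | h
  · have := card_ch_Pt m
    rw [h] at hc
    omega
  · exact h

/-- a re-rooting of degree at least three of a tree whose branches are paths -/
theorem UI_paths (hUI : Lib_UI_iff) {M : Multiset RT} (hM : ∀ D ∈ M, ∃ i, D = Pt i) {Y : RT}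
    (h : UI (node M) Y) (hc : 3 ≤ Multiset.card (ch Y)) : Y = node M := by
  rcases (hUI _ _).1 h with h | ⟨D, N, h1, h2⟩
  · exact h.symm
  · exfalso
    rw [node_inj] at h1
    obtain ⟨i, hi⟩ := hM D (by rw [h1]; exact Multiset.mem_cons_self _ _)
    rw [hi] at h2
    have := card_In_Pt h2
    omega

theorem paths_of_UI_Pt (hUI : Lib_UI_iff) {m : ℕ} {X : RT} (hm : 1 ≤ m) (h : UI X (Pt m)) :
    ∀ D ∈ ch X, ∃ i, 1 ≤ i ∧ D = Pt i := by
  intro D hD
  rcases UI_Pt hUI hm h with h | ⟨i, j, h1, h2, -, h⟩
  · rcases m with _ | _ | m
    · omega
    · rw [h] at hD; simp [Pt] at hD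
    · rw [h] at hD
      have e : Pt (m + 1 + 1) = node {Pt (m + 1)} := rfl
      rw [e, ch_node, Multiset.mem_singleton] at hD
      exact ⟨m + 1, by omega, hD⟩
  · rw [h, ch_node] at hD
    rcases Multiset.mem_cons.1 hD with hD | hD
    · exact ⟨i, h1, hD⟩
    · exact ⟨j, h2, Multiset.mem_singleton.1 hD⟩

theorem Sub_Pt {S : RT} : ∀ {m : ℕ}, Sub S (Pt m) → ∃ i, 1 ≤ i ∧ S = Pt i := by
  intro m
  induction m with
  | zero =>
    intro h
    have h : Sub S leaf := h
    cases h with
    | refl => exact ⟨1, le_refl _, rfl⟩
    | deep hD _ => simp at hD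
  | succ m ih =>
    intro h
    rcases m with _ | m
    · exact ih h
    · have e : Pt (m + 1 + 1) = node {Pt (m + 1)} := rfl
      rw [e] at h
      cases h with
      | refl => exact ⟨m + 2, by omega, rfl⟩
      | deep hD h =>
        rw [ch_node, Multiset.mem_singleton] at hD
        subst hD
        exact ih h

/-- what hangs in an unrooted path -/
theorem Sub_of_UI_Pt (hUI : Lib_UI_iff) {m : ℕ} {S X : RT} (hm : 1 ≤ m) (h : UI X (Pt m))
    (hS : Sub S X) (hc : Multiset.card (ch S) ≤ 1) : ∃ i, 1 ≤ i ∧ S = Pt i := by
  cases hS with
  | refl => exact ⟨m, hm, UI_Pt_single hUI hm h hc⟩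
  | deep hD hS =>
    obtain ⟨i, hi, rfl⟩ := paths_of_UI_Pt hUI hm h _ hD
    exact Sub_Pt hS

/-! ### Stars -/

theorem eq_replicate_leaf {M : Multiset RT} {k : ℕ}
    (h : Multiset.Rel UI M (Multiset.replicate k leaf)) : M = Multiset.replicate k leaf := by
  induction k generalizing M with
  | zero =>
    rw [Multiset.replicate_zero] at h ⊢
    exact Multiset.rel_zero_right.1 h
  | succ k ih =>
    rw [Multiset.replicate_succ] at h ⊢
    obtain ⟨D, M', h1, h2, h3⟩ := Multiset.rel_cons_right.1 h
    have h4 : D = leaf := eq_leaf_of_size (by rw [h1.size_eq]; simp)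
    rw [h3, h4, ih h2]

theorem nl_star : NL_star := by
  intro k hk
  refine ⟨node (Multiset.replicate k leaf), node {node (Multiset.replicate (k - 1) leaf)},
    UI.refl _, ?_, ?_, ?_⟩
  · obtain ⟨j, rfl⟩ : ∃ j, k = j + 1 := ⟨k - 1, by omega⟩
    rw [Multiset.replicate_succ]
    have := UI.re leaf (Multiset.replicate j leaf)
    rw [ch_leaf] at this
    simpa using this
  · intro D hD E hE
    rw [ch_node] at hD hE
    rw [Multiset.mem_singleton] at hE
    rw [Multiset.eq_of_mem_replicate hD, hE]
    simp
    omega
  · intro Z₁ Z₂ _ h1 _
    rw [ch_node] at h1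
    rw [← node_ch Z₁, eq_replicate_leaf h1]
    exact UI.refl _

/-! ### Two equal large branches and a leaf -/

theorem rel_two {M : Multiset RT} {a b : RT} (h : Multiset.Rel UI M {a, b}) :
    ∃ a' b', M = {a', b'} ∧ UI a' a ∧ UI b' b := by
  obtain ⟨a', M', h1, h2, h3⟩ := Multiset.rel_cons_right.1 h
  obtain ⟨b', M'', h4, h5, h6⟩ := Multiset.rel_cons_right.1 h2
  rw [Multiset.rel_zero_right.1 h5] at h6
  exact ⟨a', b', by rw [h3, h6]; rfl, h1, h4⟩

theorem rel_three {M : Multiset RT} {a b c : RT} (h : Multiset.Rel UI M {a, b, c}) :
    ∃ a' b' c', M = {a', b', c'} ∧ UI a' a ∧ UI b' b ∧ UI c' c := by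
  obtain ⟨a', M', h1, h2, h3⟩ := Multiset.rel_cons_right.1 h
  obtain ⟨b', c', h4, h5, h6⟩ := rel_two h2
  exact ⟨a', b', c', by rw [h3, h4]; rfl, h1, h5, h6⟩

theorem rel_one {M : Multiset RT} {a : RT} (h : Multiset.Rel UI M {a}) :
    ∃ a', M = {a'} ∧ UI a' a := by
  obtain ⟨a', M', h1, h2, h3⟩ := Multiset.rel_cons_right.1 h
  rw [Multiset.rel_zero_right.1 h2] at h3
  exact ⟨a', h3, h1⟩

theorem nl_leaf (hUI : Lib_UI_iff) (huni : Lib_uni) : NL_leaf := by
  intro B₁ B₂ hB hB3
  refine ⟨node {leaf, B₁, B₂}, node {node {B₁, B₂}}, UI.refl _, ?_, ?_, ?_⟩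
  · have := UI.re leaf {B₁, B₂}
    rw [ch_leaf] at this
    exact this
  · intro D hD E hE
    rw [ch_node] at hD hE
    rw [Multiset.mem_singleton] at hE
    subst hE
    have e : size (node {B₁, B₂}) = 1 + (size B₁ + size B₂) := by simp
    rw [e]
    simp only [Multiset.insert_eq_cons, Multiset.mem_cons, Multiset.mem_singleton] at hD
    rcases hD with rfl | rfl | rfl
    · rw [size_leaf]; omega
    · omega
    · omega
  · intro Z₁ Z₂ h h1 h2
    rw [ch_node] at h1 h2
    obtain ⟨l, F₁, F₂, e1, hl, hF₁, hF₂⟩ := rel_three h1
    obtain ⟨K, e2, hK⟩ := rel_one h2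
    have hl' : l = leaf := eq_leaf_of_size (by rw [hl.size_eq]; simp)
    subst hl'
    have eZ₁ : Z₁ = node {leaf, F₁, F₂} := by rw [← e1, node_ch]
    have eZ₂ : Z₂ = node {K} := by rw [← e2, node_ch]
    subst eZ₁ eZ₂
    have s1 := hF₁.size_eq
    have s2 := hF₂.size_eq
    have sX : size (node {B₁, B₂}) = 1 + (size B₁ + size B₂) := by simp
    rcases UI_single hUI h with h | ⟨K', hd, hK'⟩
    · exfalso
      rw [node_inj] at h
      have := congrArg Multiset.card h
      simp at this
    · have hKB : UI K' (node {B₁, B₂}) := hK'.trans hK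
      have sK' := hKB.size_eq
      have bal : ∀ D ∈ ({B₁, B₂} : Multiset RT), 2 * size D < size (node {B₁, B₂}) := by
        intro D hD
        simp only [Multiset.insert_eq_cons, Multiset.mem_cons, Multiset.mem_singleton] at hD
        rcases hD with rfl | rfl <;> omega
      rcases Del_inv hd with ⟨M, e3, e4⟩ | ⟨D, D', M, e3, hD, e4⟩
      · rw [node_inj] at e3
        have e5 : M = {F₁, F₂} := ((Multiset.cons_inj_right _).1 e3).symm
        subst e5 e4
        have e6 : ({F₁, F₂} : Multiset RT) = {B₁, B₂} := by
          refine huni _ _ hKB ?_ bal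
          intro D hD
          rw [sK', sX]
          simp only [Multiset.insert_eq_cons, Multiset.mem_cons, Multiset.mem_singleton] at hD
          rcases hD with rfl | rfl <;> omega
        have e7 : ({leaf, F₁, F₂} : Multiset RT) = {leaf, B₁, B₂} := by
          show leaf ::ₘ {F₁, F₂} = leaf ::ₘ {B₁, B₂}
          rw [e6]
        rw [e7]
        exact UI.refl _
      · exfalso
        rw [node_inj] at e3
        subst e4
        have sD := hD.size_eq
        rw [size_leaf] at sD
        have all : ∀ F ∈ D ::ₘ M, size F ≤ size B₁ := by
          intro F hF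
          rw [← e3] at hF
          simp only [Multiset.insert_eq_cons, Multiset.mem_cons, Multiset.mem_singleton] at hF
          rcases hF with rfl | rfl | rfl
          · rw [size_leaf]; omega
          · omega
          · omega
        have e5 : D' ::ₘ M = {B₁, B₂} := by
          refine huni _ _ hKB ?_ bal
          intro F hF
          rw [sK', sX]
          rcases Multiset.mem_cons.1 hF with rfl | hF
          · have := all D (Multiset.mem_cons_self _ _)
            omega
          · have := all F (Multiset.mem_cons_of_mem hF)
            omega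
        have c1 := congrArg Multiset.card e3
        have c2 := congrArg Multiset.card e5
        simp at c1 c2
        omega

/-! ### Double stars -/

theorem UI_star (hUI : Lib_UI_iff) {k : ℕ} {F : RT}
    (h : UI F (node (Multiset.replicate k leaf))) : F = node (Multiset.replicate k leaf) ∨
      F = node {node (Multiset.replicate (k - 1) leaf)} := by
  rcases (hUI _ _).1 h.symm with h | ⟨D, M, h1, h2⟩
  · exact Or.inl h.symm
  · right
    rw [node_inj] at h1
    have hD : D = leaf := Multiset.eq_of_mem_replicate (h1 ▸ Multiset.mem_cons_self D M)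
    subst hD
    have hM : M = Multiset.replicate (k - 1) leaf := by
      rw [Multiset.eq_replicate]
      constructor
      · have := congrArg Multiset.card h1
        simp at this
        omega
      · intro b hb
        exact Multiset.eq_of_mem_replicate (h1 ▸ Multiset.mem_cons_of_mem hb)
    rw [In_leaf h2, hM]

theorem size_replicate_leaf (k : ℕ) : ((Multiset.replicate k leaf).map size).sum = k := by
  rw [Multiset.map_replicate, Multiset.sum_replicate, size_leaf]
  simp

theorem nl_dstar (hUI : Lib_UI_iff) (huni : Lib_uni) : NL_dstar := by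
  intro k hk
  obtain ⟨j, rfl⟩ : ∃ j, k = j + 1 := ⟨k - 1, by omega⟩
  set A := node (Multiset.replicate (j + 1) leaf) with hA
  set B := node (Multiset.replicate j leaf) with hB
  have sA : size A = j + 2 := by rw [hA, size_node, size_replicate_leaf]; omega
  have sB : size B = j + 1 := by rw [hB, size_node, size_replicate_leaf]; omega
  have cB : Multiset.card (ch B) = j := by rw [hB]; simp
  have sBal : size (node (B ::ₘ Multiset.replicate (j + 1) leaf)) = 2 * j + 3 := by
    rw [size_node, Multiset.map_cons, Multiset.sum_cons, size_replicate_leaf, sB]; omega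
  have bal : ∀ D ∈ B ::ₘ Multiset.replicate (j + 1) leaf,
      2 * size D < size (node (B ::ₘ Multiset.replicate (j + 1) leaf)) := by
    intro D hD
    rw [sBal]
    rcases Multiset.mem_cons.1 hD with rfl | hD
    · omega
    · rw [Multiset.eq_of_mem_replicate hD, size_leaf]; omega
  refine ⟨node (A ::ₘ Multiset.replicate (j + 1) leaf), node {node (A ::ₘ Multiset.replicate j leaf)},
    UI.refl _, ?_, ?_, ?_⟩
  · have := UI.re leaf (A ::ₘ Multiset.replicate j leaf)
    rw [ch_leaf, Multiset.cons_swap, ← Multiset.replicate_succ] at this
    exact this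
  · intro D hD E hE
    rw [ch_node] at hD hE
    rw [Multiset.mem_singleton] at hE
    subst hE
    rw [size_node, Multiset.map_cons, Multiset.sum_cons, size_replicate_leaf, sA]
    rcases Multiset.mem_cons.1 hD with rfl | hD
    · omega
    · rw [Multiset.eq_of_mem_replicate hD, size_leaf]; omega
  · intro Z₁ Z₂ h h1 h2
    rw [ch_node] at h1 h2
    obtain ⟨F, M, hF, hM, e1⟩ := Multiset.rel_cons_right.1 h1
    have hM' := eq_replicate_leaf hM
    subst hM'
    obtain ⟨K, e2, hK⟩ := rel_one h2
    have eZ₁ : Z₁ = node (F ::ₘ Multiset.replicate (j + 1) leaf) := by rw [← e1, node_ch]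
    have eZ₂ : Z₂ = node {K} := by rw [← e2, node_ch]
    subst eZ₁ eZ₂
    have sF := hF.size_eq
    rw [sA] at sF
    rcases UI_star hUI hF with hF | hF
    · rw [hF]; exact UI.refl _
    exfalso
    have hF : F = node {B} := hF
    rcases UI_single hUI h with h | ⟨K', hd, hK'⟩
    · rw [node_inj] at h
      have := congrArg Multiset.card h
      simp at this
    · have hKB : UI K' (node (B ::ₘ Multiset.replicate (j + 1) leaf)) := by
        refine (hK'.trans hK).trans ?_
        have := UI.re A (Multiset.replicate j leaf)
        rw [hA, ch_node] at this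
        exact this
      have sK' := hKB.size_eq
      rw [sBal] at sK'
      rcases Del_inv hd with ⟨M, e3, e4⟩ | ⟨D, D', M, e3, hD, e4⟩
      · rw [node_inj, Multiset.replicate_succ, Multiset.cons_swap] at e3
        have e5 : M = F ::ₘ Multiset.replicate j leaf := ((Multiset.cons_inj_right _).1 e3).symm
        subst e5 e4
        have h5 : UI (node {B, B}) (node (B ::ₘ Multiset.replicate (j + 1) leaf)) := by
          refine UI.trans ?_ hKB
          have := UI.re F (Multiset.replicate j leaf)
          rw [hF, ch_node] at this
          rw [hF]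
          exact this.symm
        have e6 : ({B, B} : Multiset RT) = B ::ₘ Multiset.replicate (j + 1) leaf := by
          refine huni _ _ h5 ?_ bal
          intro D hD
          rw [h5.size_eq, sBal]
          simp only [Multiset.insert_eq_cons, Multiset.mem_cons, Multiset.mem_singleton] at hD
          rcases hD with rfl | rfl <;> omega
        have c1 := congrArg Multiset.card e6
        simp at c1
        omega
      · rw [node_inj] at e3
        have sD := hD.size_eq
        rw [size_leaf] at sD
        have hDF : D = F := by
          have h5 : D ∈ F ::ₘ Multiset.replicate (j + 1) leaf := e3 ▸ Multiset.mem_cons_self D M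
          rcases Multiset.mem_cons.1 h5 with h5 | h5
          · exact h5
          · exfalso
            rw [Multiset.eq_of_mem_replicate h5, size_leaf] at sD
            have := size_pos D'
            omega
        subst hDF
        have hM : M = Multiset.replicate (j + 1) leaf := ((Multiset.cons_inj_right _).1 e3).symm
        subst hM e4
        have e5 : D' ::ₘ Multiset.replicate (j + 1) leaf = B ::ₘ Multiset.replicate (j + 1) leaf := by
          refine huni _ _ hKB ?_ bal
          intro E hE
          rw [sK']
          rcases Multiset.mem_cons.1 hE with rfl | hE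
          · omega
          · rw [Multiset.eq_of_mem_replicate hE, size_leaf]; omega
        have e6 : D' = B := (Multiset.cons_inj_left _).1 e5
        subst e6
        rw [hF] at hD
        rcases Del_inv hD with ⟨M, e7, e8⟩ | ⟨G, G', M, e7, -, e8⟩
        · rw [node_inj] at e7
          obtain ⟨h6, -⟩ := cons_eq_one e7.symm
          rw [← h6, size_leaf] at sB
          omega
        · rw [node_inj] at e7
          obtain ⟨-, h6⟩ := cons_eq_one e7.symm
          subst h6
          rw [e8] at cB
          simp at cB
          omega

/-! ### A branching vertex with a long tail -/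

theorem card_two_of_paths {W : RT} (hUI : Lib_UI_iff) {m : ℕ} (hm : 1 ≤ m) (h : UI W (Pt m))
    (hc : 2 ≤ Multiset.card (ch W)) : ∃ i j, W = node {Pt i, Pt j} := by
  obtain ⟨i, j, -, -, -, h⟩ := UI_Pt_double hUI hm h hc
  exact ⟨i, j, h⟩

/-- the case in which the vertex of degree at least three is recognised by its degree -/
theorem eq_of_UI_paths (hUI : Lib_UI_iff) {W Q P : RT} {m : ℕ} (hm : 1 ≤ m) (hQ : UI Q (Pt m))
    (hP : ∃ i, P = Pt i) (hc : 2 ≤ Multiset.card (ch W))
    (h : UI (node (P ::ₘ ch Q)) (node (P ::ₘ ch W))) : W = Q := by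
  have h1 := UI_paths hUI (M := P ::ₘ ch Q) (Y := node (P ::ₘ ch W)) ?_ h ?_
  · rw [node_inj] at h1
    have h2 := (Multiset.cons_inj_right _).1 h1
    rw [← node_ch W, h2, node_ch]
  · intro D hD
    rcases Multiset.mem_cons.1 hD with rfl | hD
    · exact hP
    · obtain ⟨i, -, hi⟩ := paths_of_UI_Pt hUI hm hQ D hD
      exact ⟨i, hi⟩
  · rw [ch_node, Multiset.card_cons]; omega

theorem UI_chain_one (Y : RT) : UI (node {Y}) (node (leaf ::ₘ ch Y)) := by
  have := UI.re Y 0
  exact this

theorem UI_chain_two (Y : RT) : UI (node {node {Y}}) (node (Pt 2 ::ₘ ch Y)) := by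
  have h1 := UI.re (node {Y}) 0
  rw [ch_node] at h1
  have h2 : (node 0 ::ₘ {Y} : Multiset RT) = Y ::ₘ {leaf} := by
    rw [← leaf]; exact Multiset.pair_comm _ _
  rw [h2] at h1
  refine UI.trans h1 ?_
  exact UI.re Y {leaf}

theorem nl_tail (hUI : Lib_UI_iff) (hHP : Lib_HP) : NL_tail := by
  intro W L hW hWn hWL hL
  have hW3 : 3 ≤ size W := by
    rw [size_eq]
    have : Multiset.card (ch W) ≤ ((ch W).map size).sum := by
      have h := Multiset.card_nsmul_le_sum (s := (ch W).map size) (a := 1) (by
        intro x hx
        obtain ⟨D, -, rfl⟩ := Multiset.mem_map.1 hx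
        exact size_pos D)
      simpa using h
    omega
  have hnp : ∀ m, 1 ≤ m → ¬ UI W (Pt m) := by
    intro m hm h
    obtain ⟨i, j, h⟩ := card_two_of_paths hUI hm h hW
    exact hWn i j h
  obtain ⟨l, rfl⟩ : ∃ l, L = l + 4 := ⟨L - 4, by omega⟩
  have re1 : UI (node (Pt (l + 4) ::ₘ ch W)) (node {W, Pt (l + 3)}) := by
    have h1 := UI.re (Pt (l + 4)) (ch W)
    rw [node_ch, ch_Pt] at h1
    exact h1
  have re2 : UI (node {W, Pt (l + 3)}) (node {node {W}, Pt (l + 2)}) := by
    have h1 := UI.re (Pt (l + 3)) {W}
    rw [ch_Pt] at h1
    have h2 : (Pt (l + 3) ::ₘ {W} : Multiset RT) = {W, Pt (l + 3)} := Multiset.pair_comm _ _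
    rw [h2] at h1
    exact h1
  have re3 : UI (node {node {W}, Pt (l + 2)}) (node {node {node {W}}, Pt (l + 1)}) := by
    have h1 := UI.re (Pt (l + 2)) {node {W}}
    rw [ch_Pt] at h1
    have h2 : (Pt (l + 2) ::ₘ {node {W}} : Multiset RT) = {node {W}, Pt (l + 2)} :=
      Multiset.pair_comm _ _
    rw [h2] at h1
    exact h1
  by_cases hw : size W = l + 2
  · -- the second and the third vertex of the tail
    refine ⟨node {node {W}, Pt (l + 2)}, node {node {node {W}}, Pt (l + 1)}, re1.trans re2,
      (re1.trans re2).trans re3, ?_, ?_⟩
    · intro D hD E hE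
      rw [ch_node] at hD hE
      have s1 : size (node {W}) = 1 + size W := by simp
      have s2 : size (node {node {W}}) = 2 + size W := by simp; omega
      have s3 := size_Pt (l + 2) (by omega)
      have s4 := size_Pt (l + 1) (by omega)
      simp only [Multiset.insert_eq_cons, Multiset.mem_cons, Multiset.mem_singleton] at hD hE
      rcases hD with rfl | rfl <;> rcases hE with rfl | rfl <;> omega
    · intro Z₁ Z₂ h h1 h2
      rw [ch_node] at h1 h2
      obtain ⟨C, Q, e1, hC, hQ⟩ := rel_two h1
      obtain ⟨A, B, e2, hA, hB⟩ := rel_two h2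
      have eZ₁ : Z₁ = node {C, Q} := by rw [← e1, node_ch]
      have eZ₂ : Z₂ = node {A, B} := by rw [← e2, node_ch]
      subst eZ₁ eZ₂
      have s1 : size C = l + 3 := by rw [hC.size_eq]; simp; omega
      have s2 : size Q = l + 2 := by rw [hQ.size_eq, size_Pt _ (by omega)]
      have s3 : size A = l + 4 := by rw [hA.size_eq]; simp; omega
      have s4 : size B = l + 1 := by rw [hB.size_eq, size_Pt _ (by omega)]
      rcases (hUI _ _).1 h with h | ⟨D, M, h3, h4⟩
      · exfalso
        rw [node_inj] at h
        have h5 : A ∈ ({C, Q} : Multiset RT) := h ▸ Multiset.mem_cons_self A {B}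
        simp only [Multiset.insert_eq_cons, Multiset.mem_cons, Multiset.mem_singleton] at h5
        rcases h5 with rfl | rfl <;> omega
      · rw [node_inj] at h3
        rcases cons_eq_two h3.symm with ⟨hD, hM⟩ | ⟨hD, hM⟩
        · -- `x ∈ C`
          subst hD hM
          have sK : size (node {Q}) = l + 3 := by simp; omega
          exfalso
          rcases In_inv h4 with h5 | ⟨E, N, h5, h6⟩
          · rw [node_inj] at h5
            rcases cons_eq_two h5.symm with ⟨h5, -⟩ | ⟨h5, -⟩
            · rw [h5] at sK; omega
            · rw [h5] at sK; omega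
          · obtain ⟨U, S, e3, hS, hKU, hsum, hUS⟩ := In_up h6
            have sN : size (node (node {Q} ::ₘ N)) = 1 + (l + 3 + (N.map size).sum) := by
              rw [size_node, Multiset.map_cons, Multiset.sum_cons, sK]
            have e4 := e3
            rw [node_inj] at e4
            rcases cons_eq_two e4.symm with ⟨h7, h8⟩ | ⟨h7, h8⟩
            · rcases hUS with ⟨h9, h10⟩ | ⟨h9, h10⟩
              · rw [← h10, h7] at sN
                have hN : N = 0 := eq_zero_of_sum (by omega)
                subst hN
                have h11 : UI (node {node {Q}}) (node {node {W}}) := by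
                  rw [h7] at h10
                  have h12 : node {node {Q}} = A := h10.symm
                  rw [h12]
                  exact hA
                have h12 := ((UI_chain_two Q).symm.trans h11).trans (UI_chain_two W)
                have h13 := eq_of_UI_paths hUI (m := l + 2) (by omega) hQ ⟨2, rfl⟩ hW h12
                rw [← h13] at hQ
                exact hnp _ (by omega) hQ
              · rw [h7] at h10; omega
            · have : size (node (node {Q} ::ₘ N)) ≤ size U := by
                rcases hUS with ⟨h9, h10⟩ | ⟨h9, h10⟩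
                · rw [h10]
                · omega
              rw [h7] at this
              omega
        · -- `x ∈ Q`
          subst hD hM
          obtain ⟨U, S, e3, hS, hKU, hsum, hUS⟩ := In_up h4
          have sK : size (node {C}) = l + 4 := by simp; omega
          have e4 := e3
          rw [node_inj] at e4
          rcases cons_eq_two e4.symm with ⟨h7, h8⟩ | ⟨h7, h8⟩
          · rcases hUS with ⟨h9, h10⟩ | ⟨h9, h10⟩
            · rw [h7] at h10
              rw [h10] at hA
              have h11 : C = node {W} := hHP _ _ hC hA
              rw [h9] at h8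
              have h12 : D = Pt (l + 2) := UI_Pt_single hUI (by omega) hQ (by rw [h8]; simp)
              rw [h11, h12]
              exact (re1.trans re2).symm
            · rw [h7] at h10; omega
          · exfalso
            have : size (node {C}) ≤ size U := by
              rcases hUS with ⟨h9, h10⟩ | ⟨h9, h10⟩
              · rw [h10]
              · omega
            rw [h7] at this
            omega
  · refine ⟨node {W, Pt (l + 3)}, node {node {W}, Pt (l + 2)}, re1,
      re1.trans re2, ?_, ?_⟩
    · intro D hD E hE
      rw [ch_node] at hD hE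
      have s1 : size (node {W}) = 1 + size W := by simp
      have s3 := size_Pt (l + 3) (by omega)
      have s4 := size_Pt (l + 2) (by omega)
      simp only [Multiset.insert_eq_cons, Multiset.mem_cons, Multiset.mem_singleton] at hD hE
      rcases hD with rfl | rfl <;> rcases hE with rfl | rfl <;> omega
    · intro Z₁ Z₂ h h1 h2
      rw [ch_node] at h1 h2
      obtain ⟨C, Q, e1, hC, hQ⟩ := rel_two h1
      obtain ⟨A, B, e2, hA, hB⟩ := rel_two h2
      have eZ₁ : Z₁ = node {C, Q} := by rw [← e1, node_ch]
      have eZ₂ : Z₂ = node {A, B} := by rw [← e2, node_ch]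
      subst eZ₁ eZ₂
      have s1 : size C = size W := by rw [hC.size_eq]
      have s2 : size Q = l + 3 := by rw [hQ.size_eq, size_Pt _ (by omega)]
      have s3 : size A = size W + 1 := by rw [hA.size_eq]; simp; omega
      have s4 : size B = l + 2 := by rw [hB.size_eq, size_Pt _ (by omega)]
      rcases (hUI _ _).1 h with h | ⟨D, M, h3, h4⟩
      · exfalso
        rw [node_inj] at h
        have h5 : A ∈ ({C, Q} : Multiset RT) := h ▸ Multiset.mem_cons_self A {B}
        simp only [Multiset.insert_eq_cons, Multiset.mem_cons, Multiset.mem_singleton] at h5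
        rcases h5 with rfl | rfl <;> omega
      · rw [node_inj] at h3
        rcases cons_eq_two h3.symm with ⟨hD, hM⟩ | ⟨hD, hM⟩
        · -- `x ∈ C`
          subst hD hM
          have sK : size (node {Q}) = l + 4 := by simp; omega
          exfalso
          obtain ⟨U, S, e3, hS, hKU, hsum, hUS⟩ := In_up h4
          have e4 := e3
          rw [node_inj] at e4
          rcases cons_eq_two e4.symm with ⟨h7, h8⟩ | ⟨h7, h8⟩
          · rcases hUS with ⟨h9, h10⟩ | ⟨h9, h10⟩
            · have h11 : UI (node {Q}) (node {W}) := by
                rw [← h10, h7]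
                exact hA
              have h12 := ((UI_chain_one Q).symm.trans h11).trans (UI_chain_one W)
              have h13 := eq_of_UI_paths hUI (m := l + 3) (by omega) hQ ⟨1, rfl⟩ hW h12
              rw [← h13] at hQ
              exact hnp _ (by omega) hQ
            · rw [h7] at h10; omega
          · have : size (node {Q}) ≤ size U := by
              rcases hUS with ⟨h9, h10⟩ | ⟨h9, h10⟩
              · rw [h10]
              · omega
            rw [h7] at this
            omega
        · -- `x ∈ Q`
          subst hD hM
          obtain ⟨U, S, e3, hS, hKU, hsum, hUS⟩ := In_up h4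
          have sK : size (node {C}) = size W + 1 := by simp; omega
          have e4 := e3
          rw [node_inj] at e4
          rcases cons_eq_two e4.symm with ⟨h7, h8⟩ | ⟨h7, h8⟩
          · rcases hUS with ⟨h9, h10⟩ | ⟨h9, h10⟩
            · rw [h7] at h10
              rw [h10] at hA
              have h11 : C = W := hHP _ _ hC hA
              rw [h9] at h8
              have h12 : D = Pt (l + 3) := UI_Pt_single hUI (by omega) hQ (by rw [h8]; simp)
              rw [h11, h12]
              exact re1.symm
            · rw [h7] at h10; omega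
          · exfalso
            rw [h7] at hKU
            obtain ⟨i, hi, h10⟩ := Sub_of_UI_Pt hUI (m := l + 2) (by omega) hB hKU (by simp)
            rcases i with _ | _ | i
            · omega
            · rw [h10, Pt_one, size_leaf] at sK; omega
            · have e : Pt (i + 1 + 1) = node {Pt (i + 1)} := rfl
              rw [e, node_inj, Multiset.singleton_inj] at h10
              rw [h10] at hC
              exact hnp _ (by omega) hC.symm

/-! ### A path with legs at its two middle vertices -/

/-- the two vertices of degree three of the tree `T` -/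
theorem legs_T (hUI : Lib_UI_iff) {k : ℕ} {Y : RT}
    (h : UI (node {leaf, Pt k, node {leaf, leaf}}) Y) (hc : 3 ≤ Multiset.card (ch Y)) :
    Y = node {leaf, Pt k, node {leaf, leaf}} ∨ Y = node {leaf, leaf, node {leaf, Pt k}} := by
  rcases (hUI _ _).1 h with h | ⟨D, M, h1, h2⟩
  · exact Or.inl h.symm
  · rw [node_inj] at h1
    rcases cons_eq_three h1.symm with ⟨hD, hM⟩ | ⟨hD, hM⟩ | ⟨hD, hM⟩
    · subst hD hM
      exfalso
      have := In_leaf h2
      rw [this] at hc
      simp at hc
    · subst hD hM
      exfalso
      have := card_In_Pt h2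
      omega
    · subst hD hM
      right
      rcases In_inv h2 with h3 | ⟨E, N, h3, h4⟩
      · rw [h3, ch_node, node_inj]
        show node {leaf, Pt k} ::ₘ leaf ::ₘ {leaf} = leaf ::ₘ leaf ::ₘ {node {leaf, Pt k}}
        rw [Multiset.cons_swap]
        congr 1
        exact Multiset.pair_comm _ _
      · rw [node_inj] at h3
        exfalso
        have hE : E = leaf := by
          rcases cons_eq_two h3.symm with ⟨h, -⟩ | ⟨h, -⟩ <;> exact h
        subst hE
        have := In_leaf h4
        rw [this] at hc
        simp at hc

theorem nl_legs (hUI : Lib_UI_iff) : NL_legs := by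
  intro k' hk'
  obtain ⟨k, rfl⟩ : ∃ k, k' = k + 2 := ⟨k' - 2, by omega⟩
  -- the tree `T`
  set P := Pt (k + 2) with hP
  have sP : size P = k + 2 := size_Pt _ (by omega)
  have sPk : size (Pt k) = k := size_Pt _ (by omega)
  have hPk : P = node {node {Pt k}} := by
    rw [hP, Pt_succ (by omega), Pt_succ (by omega)]
  set T := node {node {leaf, node {leaf, P}}} with hT
  have sT : size T = k + 7 := by
    rw [hT]; simp only [size_node, Multiset.insert_eq_cons, Multiset.map_cons, Multiset.sum_cons,
      Multiset.map_singleton, Multiset.sum_singleton, size_leaf, sP]; omega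
  have hT' : UI T (node {leaf, P, node {leaf, leaf}}) := by
    have h1 := UI.re (node {leaf, node {leaf, P}}) 0
    rw [ch_node] at h1
    have h2 : (node 0 ::ₘ {leaf, node {leaf, P}} : Multiset RT)
        = node {leaf, P} ::ₘ {leaf, leaf} := by
      show leaf ::ₘ leaf ::ₘ {node {leaf, P}} = node {leaf, P} ::ₘ leaf ::ₘ {leaf}
      rw [Multiset.cons_swap (node {leaf, P})]
      congr 1
      exact Multiset.pair_comm _ _
    rw [h2] at h1
    have h3 := UI.re (node {leaf, P}) {leaf, leaf}
    rw [ch_node] at h3
    have h4 : (node {leaf, leaf} ::ₘ {leaf, P} : Multiset RT) = {leaf, P, node {leaf, leaf}} := by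
      show node {leaf, leaf} ::ₘ leaf ::ₘ {P} = leaf ::ₘ P ::ₘ {node {leaf, leaf}}
      rw [Multiset.cons_swap]
      congr 1
      exact Multiset.pair_comm _ _
    rw [h4] at h3
    exact h1.trans h3
  -- re-rootings
  have re1 : UI (node {node {leaf, P}, leaf, P})
      (node {node {node {leaf, P}, leaf}, node {Pt k}}) := by
    have h1 := UI.re P {node {leaf, P}, leaf}
    have h2 : (P ::ₘ {node {leaf, P}, leaf} : Multiset RT) = {node {leaf, P}, leaf, P} := by
      show P ::ₘ node {leaf, P} ::ₘ {leaf} = node {leaf, P} ::ₘ leaf ::ₘ {P}
      rw [Multiset.cons_swap]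
      congr 1
      exact Multiset.pair_comm _ _
    rw [h2] at h1
    have h3 : ch P = {node {Pt k}} := by rw [hPk, ch_node]
    rw [h3] at h1
    exact h1
  have re2 : UI (node {node {node {leaf, P}, leaf}, node {Pt k}}) (node {T, Pt k}) := by
    have h1 := UI.re (node {Pt k}) {node {node {leaf, P}, leaf}}
    rw [ch_node] at h1
    have h2 : (node {Pt k} ::ₘ {node {node {leaf, P}, leaf}} : Multiset RT)
        = {node {node {leaf, P}, leaf}, node {Pt k}} := Multiset.pair_comm _ _
    rw [h2] at h1
    have h3 : ({node {leaf, P}, leaf} : Multiset RT) = {leaf, node {leaf, P}} :=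
      Multiset.pair_comm _ _
    rw [h3] at h1 ⊢
    exact h1
  refine ⟨node {node {leaf, P}, leaf, P}, node {T, Pt k}, UI.refl _, re1.trans re2, ?_, ?_⟩
  · intro D hD E hE
    rw [ch_node] at hD hE
    have s1 : size (node (leaf ::ₘ {P})) = k + 4 := by simp [sP]; omega
    simp only [Multiset.insert_eq_cons, Multiset.mem_cons, Multiset.mem_singleton] at hD hE
    rcases hD with hD | hD | hD <;> rcases hE with hE | hE <;> rw [hD, hE]
    · omega
    · omega
    · rw [size_leaf]; omega
    · rw [size_leaf]; omega
    · omega
    · omega
  · intro Z₁ Z₂ h h1 h2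
    rw [ch_node] at h1 h2
    obtain ⟨G, l, Q, e1, hG, hl, hQ⟩ := rel_three h1
    obtain ⟨T', R, e2, hTT, hR⟩ := rel_two h2
    have hl' : l = leaf := eq_leaf_of_size (by rw [hl.size_eq]; simp)
    subst hl'
    have eZ₁ : Z₁ = node {G, leaf, Q} := by rw [← e1, node_ch]
    have eZ₂ : Z₂ = node {T', R} := by rw [← e2, node_ch]
    subst eZ₁ eZ₂
    have sG : size G = k + 4 := by rw [hG.size_eq]; simp [sP]; omega
    have sQ : size Q = k + 2 := by rw [hQ.size_eq, sP]
    have sT' : size T' = k + 7 := by rw [hTT.size_eq, sT]
    have sR : size R = k := by rw [hR.size_eq, sPk]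
    -- `G` is an unrooted path
    have hGP : UI G (Pt (k + 4)) := by
      refine hG.trans ?_
      have h3 := UI.re P {leaf}
      have h4 : (P ::ₘ {leaf} : Multiset RT) = {leaf, P} := Multiset.pair_comm _ _
      rw [h4] at h3
      refine h3.trans ?_
      have h5 : ch P = {Pt (k + 1)} := ch_Pt k
      rw [h5]
      have h6 : node {leaf} = Pt 2 := rfl
      rw [h6]
      -- `node {Pt 2, Pt (k + 1)}` is a path
      have key : ∀ j i : ℕ, 1 ≤ i → UI (node {Pt i, Pt (j + 1)}) (Pt (i + j + 2)) := by
        intro j
        induction j with
        | zero =>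
          intro i hi
          have h7 := UI.re leaf {Pt i}
          rw [ch_leaf] at h7
          have h8 : (leaf ::ₘ {Pt i} : Multiset RT) = {Pt i, Pt (0 + 1)} := Multiset.pair_comm _ _
          rw [h8] at h7
          have h9 : Pt (i + 0 + 2) = node {node {Pt i}} := by
            rw [Pt_succ (by omega), Pt_succ (by omega)]
          rw [h9]
          exact h7
        | succ j ih =>
          intro i hi
          have h7 := UI.re (Pt (j + 2)) {Pt i}
          rw [ch_Pt] at h7
          have h8 : (Pt (j + 2) ::ₘ {Pt i} : Multiset RT) = {Pt i, Pt (j + 1 + 1)} :=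
            Multiset.pair_comm _ _
          rw [h8, ← Pt_succ hi] at h7
          have h9 := ih (i + 1) (by omega)
          have h10 : i + 1 + j + 2 = i + (j + 1) + 2 := by omega
          rw [h10] at h9
          exact h7.trans h9
      have h7 := key k 2 (by omega)
      have h8 : 2 + k + 2 = k + 4 := by omega
      rw [h8] at h7
      exact h7
    rcases (hUI _ _).1 h with h | ⟨D, M, h3, h4⟩
    · exfalso
      rw [node_inj] at h
      have := congrArg Multiset.card h
      simp at this
    · rw [node_inj] at h3
      rcases cons_eq_three h3.symm with ⟨hD, hM⟩ | ⟨hD, hM⟩ | ⟨hD, hM⟩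
      · -- `x ∈ G`
        subst hD hM
        have sK : size (node {leaf, Q}) = k + 4 := by simp [sQ]; omega
        -- the branch of `y` in the component `T'` of `H - x`
        have main : ∀ V, size V = 3 → UI T' (node {leaf, Q, V}) → Q = P ∧ V = node {leaf, leaf} := by
          intro V hV hTV
          have h5 := legs_T hUI (k := k + 2) (Y := node {leaf, Q, V})
            ((hT'.symm.trans hTT.symm).trans hTV) (by simp)
          rcases h5 with h5 | h5
          · rw [node_inj] at h5
            have h5 := (Multiset.cons_inj_right _).1 h5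
            rcases cons_eq_two h5 with ⟨h6, h7⟩ | ⟨h6, h7⟩
            · exact ⟨h6, Multiset.singleton_inj.1 h7⟩
            · rw [h6] at sQ
              simp at sQ
              omega
          · rw [node_inj] at h5
            have h5 := (Multiset.cons_inj_right _).1 h5
            rcases cons_eq_two h5 with ⟨h6, h7⟩ | ⟨h6, h7⟩
            · rw [h6] at sQ
              simp at sQ
            · have h7 := Multiset.singleton_inj.1 h7
              rw [h7] at hV
              simp at hV
        rcases In_inv h4 with h5 | ⟨E, N, h5, h6⟩
        · exfalso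
          rw [node_inj] at h5
          rcases cons_eq_two h5.symm with ⟨h5, -⟩ | ⟨h5, -⟩
          · rw [h5] at sK; omega
          · rw [h5] at sK; omega
        · have sK1 : size (node (node {leaf, Q} ::ₘ N)) = k + 5 + (N.map size).sum := by
            rw [size_node, Multiset.map_cons, Multiset.sum_cons, sK]; omega
          rcases In_inv h6 with h7 | ⟨E', N', h7, h8⟩
          · exfalso
            rw [node_inj] at h7
            rcases cons_eq_two h7.symm with ⟨h8, h9⟩ | ⟨h8, h9⟩
            · -- `T'` rooted at the root of `G`
              have h10 : UI T' (node {leaf, Q, node N}) := by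
                rw [← h8]
                have h11 := UI.re (node {leaf, Q}) N
                rw [ch_node] at h11
                have h12 : (node N ::ₘ {leaf, Q} : Multiset RT) = {leaf, Q, node N} := by
                  show node N ::ₘ leaf ::ₘ {Q} = leaf ::ₘ Q ::ₘ {node N}
                  rw [Multiset.cons_swap]
                  congr 1
                  exact Multiset.pair_comm _ _
                rw [h12] at h11
                exact h11
              have sN : size (node N) = 3 := by
                rw [size_node]
                rw [h8] at sK1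
                omega
              obtain ⟨-, h11⟩ := main _ sN h10
              rw [node_inj] at h11
              subst h11
              rcases UI_Pt hUI (by omega) hGP with h12 | ⟨i, j, -, -, -, h12⟩
              · have h13 := card_ch_Pt (k + 4)
                rw [← h12, h5, ch_node] at h13
                simp at h13
              · rw [h12, node_inj] at h5
                have h13 := congrArg Multiset.card h5
                simp at h13
            · rw [h8] at sK1; omega
          · have sK2 : size (node (node (node {leaf, Q} ::ₘ N) ::ₘ N'))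
                = k + 6 + (N.map size).sum + (N'.map size).sum := by
              rw [size_node, Multiset.map_cons, Multiset.sum_cons, sK1]; omega
            have hU2 : UI (node (node (node {leaf, Q} ::ₘ N) ::ₘ N'))
                (node {leaf, Q, node (node N' ::ₘ N)}) := by
              have h11 := UI.re (node (node {leaf, Q} ::ₘ N)) N'
              rw [ch_node, Multiset.cons_swap] at h11
              have h12 := UI.re (node {leaf, Q}) (node N' ::ₘ N)
              rw [ch_node] at h12
              have h13 : (node (node N' ::ₘ N) ::ₘ {leaf, Q} : Multiset RT)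
                  = {leaf, Q, node (node N' ::ₘ N)} := by
                show node (node N' ::ₘ N) ::ₘ leaf ::ₘ {Q} = leaf ::ₘ Q ::ₘ {node (node N' ::ₘ N)}
                rw [Multiset.cons_swap]
                congr 1
                exact Multiset.pair_comm _ _
              rw [h13] at h12
              exact h11.trans h12
            rcases In_inv h8 with h9 | ⟨E'', N'', h9, h10⟩
            · rw [node_inj] at h9
              rcases cons_eq_two h9.symm with ⟨h10, h11⟩ | ⟨h10, h11⟩
              · have sN : size (node (node N' ::ₘ N)) = 3 := by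
                  rw [size_node, Multiset.map_cons, Multiset.sum_cons, size_node]
                  rw [h10] at sK2
                  omega
                have h12 : UI T' (node {leaf, Q, node (node N' ::ₘ N)}) := by
                  rw [← h10]; exact hU2
                obtain ⟨hQP, h13⟩ := main _ sN h12
                rw [node_inj] at h13
                have h14 : node N' = leaf ∧ N = {leaf} := by
                  rcases cons_eq_two h13 with h | h <;> exact h
                obtain ⟨h14, h15⟩ := h14
                have h16 : N' = 0 := by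
                  rw [leaf, node_inj] at h14; exact h14
                subst h15 h16
                -- `G = node {node {node {R}}, leaf}`
                have hGE : D = node {E, leaf} := h5
                have hEE : E = node {E'} := h7
                have hER : E' = node {R} := by rw [← node_ch E', h11]
                rcases UI_Pt hUI (by omega) hGP with h17 | ⟨i, j, hi, hj, hij, h17⟩
                · exfalso
                  have h18 := card_ch_Pt (k + 4)
                  rw [← h17, hGE] at h18
                  simp at h18
                · have h18 : D = node {leaf, P} := by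
                    rw [hGE, node_inj] at h17
                    have hEne : E ≠ leaf := by
                      intro h
                      rw [hEE, leaf, node_inj] at h
                      exact Multiset.cons_ne_zero h
                    rcases cons_eq_two h17 with ⟨h18, h19⟩ | ⟨h18, h19⟩
                    · have h19 := Multiset.singleton_inj.1 h19
                      have h20 : j = 1 := by
                        have := congrArg size h19
                        rw [size_leaf, size_Pt j hj] at this
                        exact this.symm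
                      have h21 : i = k + 2 := by omega
                      rw [hGE, h18, h21]
                      congr 1
                      exact Multiset.pair_comm _ _
                    · have h19 := Multiset.singleton_inj.1 h19
                      have h20 : i = 1 := by
                        have := congrArg size h19
                        rw [size_leaf, size_Pt i hi] at this
                        exact this.symm
                      have h21 : j = k + 2 := by omega
                      rw [hGE, h18, h21]
                      congr 1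
                      exact Multiset.pair_comm _ _
                  rw [h18, hQP]
                  exact UI.refl _
              · exfalso
                rw [h10] at sK2; omega
            · exfalso
              have sK3 : size (node (node (node (node {leaf, Q} ::ₘ N) ::ₘ N') ::ₘ N''))
                  = k + 7 + (N.map size).sum + (N'.map size).sum + (N''.map size).sum := by
                rw [size_node, Multiset.map_cons, Multiset.sum_cons, sK2]; omega
              obtain ⟨U, S, e3, hS, hKU, hsum, hUS⟩ := In_up h10
              have hle : size (node (node (node (node {leaf, Q} ::ₘ N) ::ₘ N') ::ₘ N'')) ≤ size U := by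
                rcases hUS with ⟨h11, h12⟩ | ⟨h11, h12⟩
                · rw [h12]
                · omega
              rw [node_inj] at e3
              rcases cons_eq_two e3.symm with ⟨h11, h12⟩ | ⟨h11, h12⟩
              · rcases hUS with ⟨h13, h14⟩ | ⟨h13, h14⟩
                · rw [← h14, h11] at sK3
                  have hN : N = 0 := eq_zero_of_sum (by omega)
                  have hN' : N' = 0 := eq_zero_of_sum (by omega)
                  have hN'' : N'' = 0 := eq_zero_of_sum (by omega)
                  subst hN hN' hN''
                  have h15 : UI T' (node {leaf, Q, node {node {leaf}}}) := by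
                    rw [← h11, h14]
                    have h16 := UI.re (node (node (node {leaf, Q} ::ₘ 0) ::ₘ 0)) 0
                    rw [ch_node] at h16
                    refine h16.trans ?_
                    have h17 : (node 0 ::ₘ node (node {leaf, Q} ::ₘ 0) ::ₘ 0 : Multiset RT)
                        = node (node {leaf, Q} ::ₘ 0) ::ₘ {leaf} := Multiset.pair_comm _ _
                    rw [h17]
                    have h18 := UI.re (node (node {leaf, Q} ::ₘ 0)) {leaf}
                    rw [ch_node] at h18
                    refine h18.trans ?_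
                    have h19 : (node {leaf} ::ₘ node {leaf, Q} ::ₘ 0 : Multiset RT)
                        = node {leaf, Q} ::ₘ {node {leaf}} := Multiset.pair_comm _ _
                    rw [h19]
                    have h20 := UI.re (node {leaf, Q}) {node {leaf}}
                    rw [ch_node] at h20
                    refine h20.trans ?_
                    have h21 : (node {node {leaf}} ::ₘ {leaf, Q} : Multiset RT)
                        = {leaf, Q, node {node {leaf}}} := by
                      show node {node {leaf}} ::ₘ leaf ::ₘ {Q} = leaf ::ₘ Q ::ₘ {node {node {leaf}}}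
                      rw [Multiset.cons_swap]
                      congr 1
                      exact Multiset.pair_comm _ _
                    rw [h21]
                    exact UI.refl _
                  obtain ⟨-, h16⟩ := main _ (by simp) h15
                  rw [node_inj] at h16
                  have := congrArg Multiset.card h16
                  simp at this
                · rw [h11] at h14; omega
              · rw [h11] at hle; omega
      · -- `x` is the leaf
        subst hD hM
        exfalso
        have h5 := In_leaf h4
        rw [node_inj] at h5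
        have := congrArg Multiset.card h5
        simp at this
      · -- `x ∈ Q`
        subst hD hM
        have sK : size (node {G, leaf}) = k + 6 := by simp [sG]; omega
        rcases In_inv h4 with h5 | ⟨E, N, h5, h6⟩
        · exfalso
          rw [node_inj] at h5
          rcases cons_eq_two h5.symm with ⟨h5, -⟩ | ⟨h5, -⟩
          · rw [h5] at sK; omega
          · rw [h5] at sK; omega
        · have sK1 : size (node (node {G, leaf} ::ₘ N)) = k + 7 + (N.map size).sum := by
            rw [size_node, Multiset.map_cons, Multiset.sum_cons, sK]; omega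
          obtain ⟨U, S, e3, hS, hKU, hsum, hUS⟩ := In_up h6
          have hle : size (node (node {G, leaf} ::ₘ N)) ≤ size U := by
            rcases hUS with ⟨h11, h12⟩ | ⟨h11, h12⟩
            · rw [h12]
            · omega
          rw [node_inj] at e3
          rcases cons_eq_two e3.symm with ⟨h11, h12⟩ | ⟨h11, h12⟩
          · rcases hUS with ⟨h13, h14⟩ | ⟨h13, h14⟩
            · rw [← h14, h11] at sK1
              have hN : N = 0 := eq_zero_of_sum (by omega)
              subst hN
              have hQ1 : D = Pt (k + 2) := by
                refine UI_Pt_single hUI (by omega) hQ ?_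
                rw [h5]; simp
              have h15 : UI T' (node {leaf, leaf, G}) := by
                rw [← h11, h14]
                have h16 := UI.re (node {G, leaf}) 0
                rw [ch_node] at h16
                refine h16.trans ?_
                have h17 : (node 0 ::ₘ {G, leaf} : Multiset RT) = {leaf, leaf, G} := by
                  show leaf ::ₘ G ::ₘ {leaf} = leaf ::ₘ leaf ::ₘ {G}
                  congr 1
                  exact Multiset.pair_comm _ _
                rw [h17]
                exact UI.refl _
              have h16 := legs_T hUI (k := k + 2) (Y := node {leaf, leaf, G})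
                ((hT'.symm.trans hTT.symm).trans h15) (by simp)
              rcases h16 with h16 | h16
              · exfalso
                rw [node_inj] at h16
                have h17 := (Multiset.cons_inj_right _).1 h16
                rcases cons_eq_two h17 with ⟨h18, h19⟩ | ⟨h18, h19⟩
                · have := congrArg size h18
                  rw [size_leaf, size_Pt _ (by omega)] at this
                  omega
                · have := congrArg size h18
                  simp at this
              · rw [node_inj] at h16
                have h17 := (Multiset.cons_inj_right _).1 h16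
                have h18 := Multiset.singleton_inj.1 ((Multiset.cons_inj_right _).1 h17)
                rw [h18, hQ1]
                exact UI.refl _
            · rw [h11] at h14; omega
          · exfalso
            rw [h11] at hle; omega

end Pool.Agent.Helper95K9.Drn
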